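import Pool.Agent.helper7.BQ.Spec

set_option autoImplicit false

namespace Pool.Agent.BQ

open Finset ArithmeticFunction

private noncomputable def AAM_f (k : ℤ) : ArithmeticFunction ℝ :=
  ⟨fun d => if (d : ℤ) ∣ k then (d : ℝ) else 0, by simp⟩

private lemma AAM_f_mul (k : ℤ) : (AAM_f k).IsMultiplicative := by
  refine ⟨?_, ?_⟩
  · simp [AAM_f]
  · intro m n hmn
    have h0 : ((m * n : ℕ) : ℤ) ∣ k ↔ (m : ℤ) ∣ k ∧ (n : ℤ) ∣ k := by
      constructor
      · intro h
        push_cast at h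
        exact ⟨dvd_trans (Dvd.intro _ rfl) h, dvd_trans (Dvd.intro_left _ rfl) h⟩
      · rintro ⟨h1, h2⟩
        push_cast
        exact IsCoprime.mul_dvd (Nat.isCoprime_iff_coprime.mpr hmn) h1 h2
    show (if ((m * n : ℕ) : ℤ) ∣ k then ((m * n : ℕ) : ℝ) else 0) =
      (if (m : ℤ) ∣ k then (m : ℝ) else 0) * (if (n : ℤ) ∣ k then (n : ℝ) else 0)
    by_cases h1 : (m : ℤ) ∣ k <;> by_cases h2 : (n : ℤ) ∣ k
    · rw [if_pos (h0.mpr ⟨h1, h2⟩), if_pos h1, if_pos h2]; push_cast; rfl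
    · rw [if_neg (fun h => h2 (h0.mp h).2), if_neg h2, mul_zero]
    · rw [if_neg (fun h => h1 (h0.mp h).1), if_neg h1, zero_mul]
    · rw [if_neg (fun h => h1 (h0.mp h).1), if_neg h1, zero_mul]

private noncomputable def AAM_g (k : ℤ) : ArithmeticFunction ℝ :=
  AAM_f k * ((moebius : ArithmeticFunction ℤ) : ArithmeticFunction ℝ)

private lemma AAM_g_mul (k : ℤ) : (AAM_g k).IsMultiplicative :=
  (AAM_f_mul k).mul isMultiplicative_moebius.intCast

private lemma AAM_cR_eq (q : ℕ) (k : ℤ) : cR q k = AAM_g k q := by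
  unfold AAM_g
  rw [ArithmeticFunction.mul_apply]
  rw [Nat.sum_divisorsAntidiagonal (f := fun x y => AAM_f k x *
    ((moebius : ArithmeticFunction ℤ) : ArithmeticFunction ℝ) y)]
  unfold cR
  rw [Finset.sum_filter]
  refine Finset.sum_congr rfl fun d _ => ?_
  show _ = (if (d : ℤ) ∣ k then (d : ℝ) else 0) *
    ((moebius : ArithmeticFunction ℤ) : ArithmeticFunction ℝ) (q / d)
  rw [ArithmeticFunction.intCoe_apply]
  by_cases h : (d : ℤ) ∣ k
  · rw [if_pos h, if_pos h]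
  · rw [if_neg h, if_neg h, zero_mul]

private lemma AAM_cR_mul (m n : ℕ) (h : Nat.Coprime m n) (k : ℤ) :
    cR (m * n) k = cR m k * cR n k := by
  rw [AAM_cR_eq, AAM_cR_eq, AAM_cR_eq]
  exact (AAM_g_mul k).map_mul_of_coprime h

private lemma AAM_cR_per (q : ℕ) (k k' : ℤ) (h : (q : ℤ) ∣ k - k') : cR q k = cR q k' := by
  unfold cR
  refine Finset.sum_congr ?_ fun _ _ => rfl
  refine Finset.filter_congr fun d hd => ?_
  have hd' : (d : ℤ) ∣ k - k' :=
    dvd_trans (Int.natCast_dvd_natCast.mpr (Nat.dvd_of_mem_divisors hd)) h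
  exact (dvd_iff_dvd_of_dvd_sub hd')

private lemma AAM_sq (q c : ℕ) (b : ℤ) :
    cR q (8 * ((c % q : ℕ) : ℤ) ^ 2 - b) = cR q (8 * (c : ℤ) ^ 2 - b) := by
  refine AAM_cR_per q _ _ ?_
  have h1 : (q : ℤ) ∣ ((c % q : ℕ) : ℤ) - (c : ℤ) := by
    have h2 : (c : ℤ) = (q : ℤ) * ((c / q : ℕ) : ℤ) + ((c % q : ℕ) : ℤ) := by
      exact_mod_cast (Nat.div_add_mod c q).symm
    exact ⟨-((c / q : ℕ) : ℤ), by rw [h2]; ring_nf⟩
  have h3 : 8 * ((c % q : ℕ) : ℤ) ^ 2 - b - (8 * (c : ℤ) ^ 2 - b) =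
      (((c % q : ℕ) : ℤ) - (c : ℤ)) * (8 * (((c % q : ℕ) : ℤ) + (c : ℤ))) := by ring
  rw [h3]
  exact Dvd.dvd.mul_right h1 _

private lemma AAM_crt (m n : ℕ) (hm : 0 < m) (hn : 0 < n) (h : Nat.Coprime m n) (F G : ℕ → ℝ) :
    ∑ c ∈ (range (m * n)).filter (fun c => Nat.Coprime c (m * n)), F (c % m) * G (c % n) =
    (∑ c ∈ (range m).filter (fun c => Nat.Coprime c m), F c) *
      ∑ c ∈ (range n).filter (fun c => Nat.Coprime c n), G c := by
  rw [Finset.sum_mul_sum, ← Finset.sum_product']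
  refine Finset.sum_nbij (fun c => (c % m, c % n)) ?_ ?_ ?_ ?_
  · intro c hc
    rw [Finset.mem_filter, Finset.mem_range] at hc
    rw [Finset.mem_product, Finset.mem_filter, Finset.mem_filter, Finset.mem_range,
      Finset.mem_range]
    have h1 := (Nat.coprime_mul_iff_right.mp hc.2)
    refine ⟨⟨Nat.mod_lt _ hm, ?_⟩, ⟨Nat.mod_lt _ hn, ?_⟩⟩
    · show Nat.gcd (c % m) m = 1
      rw [← Nat.gcd_rec, Nat.gcd_comm]
      exact h1.1
    · show Nat.gcd (c % n) n = 1
      rw [← Nat.gcd_rec, Nat.gcd_comm]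
      exact h1.2
  · intro c hc d hd hcd
    rw [Finset.mem_coe, Finset.mem_filter, Finset.mem_range] at hc hd
    have e1 : c ≡ d [MOD m] := (Prod.ext_iff.mp hcd).1
    have e2 : c ≡ d [MOD n] := (Prod.ext_iff.mp hcd).2
    have e3 : c ≡ d [MOD m * n] := (Nat.modEq_and_modEq_iff_modEq_mul h).mp ⟨e1, e2⟩
    exact Nat.ModEq.eq_of_lt_of_lt e3 hc.1 hd.1
  · rintro ⟨a, b⟩ hab
    rw [Finset.mem_coe, Finset.mem_product, Finset.mem_filter, Finset.mem_filter,
      Finset.mem_range, Finset.mem_range] at hab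
    obtain ⟨⟨ha1, ha2⟩, ⟨hb1, hb2⟩⟩ := hab
    dsimp only at ha1 ha2 hb1 hb2
    refine ⟨(Nat.chineseRemainder h a b : ℕ), ?_, ?_⟩
    · rw [Finset.mem_coe, Finset.mem_filter, Finset.mem_range]
      refine ⟨Nat.chineseRemainder_lt_mul h a b hm.ne' hn.ne', ?_⟩
      have hx := (Nat.chineseRemainder h a b).2
      rw [Nat.coprime_mul_iff_right]
      constructor
      · exact hx.1.gcd_eq.trans ha2
      · exact hx.2.gcd_eq.trans hb2
    · have hx := (Nat.chineseRemainder h a b).2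
      refine Prod.ext_iff.mpr ⟨?_, ?_⟩
      · show _ % m = a
        rw [hx.1]; exact Nat.mod_eq_of_lt ha1
      · show _ % n = b
        rw [hx.2]; exact Nat.mod_eq_of_lt hb1
  · intro c _
    rfl

private lemma AAM_mul (m n : ℕ) (hm : 0 < m) (hn : 0 < n) (h : Nat.Coprime m n) (b : ℤ) :
    AA (m * n) b = AA m b * AA n b := by
  unfold AA
  have e1 : ∑ c ∈ (range (m * n)).filter (fun c => Nat.Coprime c (m * n)),
      cR (m * n) (8 * (c : ℤ) ^ 2 - b) =
      (∑ c ∈ (range m).filter (fun c => Nat.Coprime c m), cR m (8 * (c : ℤ) ^ 2 - b)) *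
      ∑ c ∈ (range n).filter (fun c => Nat.Coprime c n), cR n (8 * (c : ℤ) ^ 2 - b) := by
    rw [← AAM_crt m n hm hn h]
    refine Finset.sum_congr rfl fun c _ => ?_
    rw [AAM_sq, AAM_sq, AAM_cR_mul m n h]
  rw [e1, isMultiplicative_moebius.map_mul_of_coprime h, Nat.totient_mul h]
  push_cast
  have h1 : (Nat.totient m : ℝ) ≠ 0 := by
    exact_mod_cast (Nat.totient_pos.mpr hm).ne'
  have h2 : (Nat.totient n : ℝ) ≠ 0 := by
    exact_mod_cast (Nat.totient_pos.mpr hn).ne'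
  field_simp

private lemma AAM_one (b : ℤ) : AA 1 b = 1 := by
  unfold AA cR
  have h : (((1 : ℕ) : ℤ)) ∣ 8 * ((0 : ℕ) : ℤ) ^ 2 - b := ⟨_, (one_mul _).symm⟩
  simp [Finset.filter_singleton]

theorem AAM : AAM_stmt := by
  refine ⟨?_, ?_⟩
  · intro q b hq
    have key : ∀ s : Finset ℕ, (∀ l ∈ s, l.Prime) → AA (∏ l ∈ s, l) b = ∏ l ∈ s, AA l b := by
      intro s
      induction s using Finset.induction_on with
      | empty => intro _; simpa using AAM_one b
      | insert l s hl ih =>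
        intro hs
        have hlp : l.Prime := hs l (Finset.mem_insert_self l s)
        have hs' : ∀ l' ∈ s, l'.Prime := fun l' h' => hs l' (Finset.mem_insert_of_mem h')
        rw [Finset.prod_insert hl, Finset.prod_insert hl, ← ih hs']
        refine AAM_mul _ _ hlp.pos (Finset.prod_pos fun l' h' => (hs' l' h').pos) ?_ b
        refine Nat.Coprime.prod_right fun l' h' => ?_
        refine (Nat.coprime_primes hlp (hs' l' h')).mpr ?_
        rintro rfl
        exact hl h'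
    have h1 := key q.primeFactors (fun l hl => Nat.prime_of_mem_primeFactors hl)
    rw [Nat.prod_primeFactors_of_squarefree hq] at h1
    exact h1
  · intro q b hq
    unfold AA
    rw [ArithmeticFunction.moebius_eq_zero_of_not_squarefree hq]
    simp

end Pool.Agent.BQ
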